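import Pool.Agent.Helper35.CWS.StA

/-!
# Project CWS, module INI: translations in a chart
-/

set_option autoImplicit false

namespace Pool.Agent.Helper67.CWS

open Set Topology Metric Pool.Agent.Helper35.CWS

private theorem cont_inv {Y Z : Type} [TopologicalSpace Y] [T2Space Y] [TopologicalSpace Z]
    (E : Z → Y) (K : Set Z) (σ : Y → Z) (hK : IsCompact K)
    (hE : ContinuousOn E K) (hσ : ∀ w ∈ K, σ (E w) = w) : ContinuousOn σ (E '' K) := by
  rw [continuousOn_iff_isClosed]
  intro t ht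
  refine ⟨E '' (K ∩ t), ((hK.inter_right ht).image_of_continuousOn
    (hE.mono inter_subset_left)).isClosed, ?_⟩
  ext y
  constructor
  · rintro ⟨h1, w, hw, rfl⟩
    refine ⟨⟨w, ⟨hw, ?_⟩, rfl⟩, w, hw, rfl⟩
    have h2 : σ (E w) ∈ t := h1
    rwa [hσ w hw] at h2
  · rintro ⟨⟨w, ⟨hw, hwt⟩, rfl⟩, h2⟩
    refine ⟨?_, h2⟩
    change σ (E w) ∈ t
    rwa [hσ w hw]

/-- MODULE INI. -/
theorem hINI : StINI := by
  intro Y _ _ m A W E K B v ε hε hK hE hinj hEA hBK hAW hv hBv
  have hσ : ∀ w ∈ K, Function.invFunOn E K (E w) = w := fun w hw =>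
    hinj.leftInvOn_invFunOn hw
  have hσc : ContinuousOn (Function.invFunOn E K) (E '' K) := cont_inv E K _ hK hE hσ
  have hN : ∀ y ∈ A ∩ W, ∃ w ∈ B, E w = y := fun y hy => hAW hy
  refine ⟨fun s y => E (Function.invFunOn E K y + s • v), ?_, ?_⟩
  · refine ⟨inter_subset_left, hε, ?_, ?_, ?_, ?_⟩
    · refine hE.comp ?_ ?_
      · refine ContinuousOn.add ?_ ?_
        · refine hσc.comp continuousOn_snd ?_
          rintro ⟨s, y⟩ ⟨_, hy⟩
          obtain ⟨w, hw, rfl⟩ := hN y hy
          exact ⟨w, hBK hw, rfl⟩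
        · exact continuousOn_fst.smul continuousOn_const
      · rintro ⟨s, y⟩ ⟨hs, hy⟩
        obtain ⟨w, hw, rfl⟩ := hN y hy
        change Function.invFunOn E K (E w) + s • v ∈ K
        rw [hσ w (hBK hw)]
        exact hBv w hw s hs
    · intro y hy s hs
      obtain ⟨w, hw, rfl⟩ := hN y hy
      refine hEA ⟨_, ?_, rfl⟩
      rw [hσ w (hBK hw)]
      exact hBv w hw s hs
    · intro y hy
      obtain ⟨w, hw, rfl⟩ := hN y hy
      change E (Function.invFunOn E K (E w) + (0 : ℝ) • v) = E w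
      rw [hσ w (hBK hw), zero_smul, add_zero]
    · intro y hy s s' hs hs' hss hmem
      obtain ⟨w, hw, rfl⟩ := hN y hy
      have h1 : w + s' • v ∈ K := hBv w hw s' ⟨hs', by linarith⟩
      have h2 : Function.invFunOn E K (E w) = w := hσ w (hBK hw)
      change E (Function.invFunOn E K (E w) + (s + s') • v) =
        E (Function.invFunOn E K (E (Function.invFunOn E K (E w) + s' • v)) + s • v)
      rw [h2, hσ _ h1, add_smul, add_comm (s • v) (s' • v), add_assoc]
  · intro y hy s hs heq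
    obtain ⟨w, hw, rfl⟩ := hN y hy
    change E (Function.invFunOn E K (E w) + s • v) = E w at heq
    rw [hσ w (hBK hw)] at heq
    have h1 := hinj (hBv w hw s ⟨hs.1.le, hs.2⟩) (hBK hw) heq
    have h2 : s • v = 0 := by simpa using h1
    rcases smul_eq_zero.mp h2 with h3 | h3
    · exact hs.1.ne' h3
    · exact hv h3

end Pool.Agent.Helper67.CWS
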